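import Mathlib

open Set

namespace Pool.Agent.Results.MP_48b6db_an.RaySuperDelta

/-- `V` is a relatively weakly open subset of the closed unit ball of `X`. -/
def RelWeaklyOpen (𝕜 : Type*) [RCLike 𝕜] {X : Type*} [NormedAddCommGroup X] [NormedSpace 𝕜 X]
    (V : Set X) : Prop :=
  ∃ U : Set (WeakSpace 𝕜 X), IsOpen U ∧ V = {y : X | ‖y‖ ≤ 1 ∧ toWeakSpace 𝕜 X y ∈ U}

/-- `x` is a super Delta-point of the closed unit ball of `X`. -/
def IsSuperDelta (𝕜 : Type*) [RCLike 𝕜] {X : Type*} [NormedAddCommGroup X] [NormedSpace 𝕜 X]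
    (x : X) : Prop :=
  ‖x‖ ≤ 1 ∧ ∀ V : Set X, RelWeaklyOpen 𝕜 V → x ∈ V →
    sSup ((fun y => ‖x - y‖) '' V) = 1 + ‖x‖

theorem result (𝕜 : Type*) [RCLike 𝕜] (X : Type*) [NormedAddCommGroup X] [NormedSpace 𝕜 X]
    [CompleteSpace X] (x : X) (hx : ‖x‖ = 1) (hdelta : IsSuperDelta 𝕜 x)
    (r : ℝ) (hr0 : 0 < r) (hr1 : r < 1) : IsSuperDelta 𝕜 ((r : 𝕜) • x) := by
  have hnr : ‖(r : 𝕜) • x‖ = r := by
    rw [norm_smul, hx, mul_one, RCLike.norm_ofReal, abs_of_pos hr0]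
  refine ⟨by rw [hnr]; exact hr1.le, ?_⟩
  rintro V ⟨U, hU, rfl⟩ hxV
  rw [hnr]
  -- the affine map
  set a : 𝕜 := (((1 + r) / 2 : ℝ) : 𝕜) with ha
  set b : 𝕜 := (((1 - r) / 2 : ℝ) : 𝕜) with hb
  have hna : ‖a‖ = (1 + r) / 2 := by
    rw [ha, RCLike.norm_ofReal, abs_of_pos (by linarith)]
  have hnb : ‖b‖ = (1 - r) / 2 := by
    rw [hb, RCLike.norm_ofReal, abs_of_pos (by linarith)]
  have hab : a - b = (r : 𝕜) := by
    rw [ha, hb, ← RCLike.ofReal_sub]; congr 1; ring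
  let φ : WeakSpace 𝕜 X → WeakSpace 𝕜 X := fun z => a • z - b • (toWeakSpace 𝕜 X x)
  have hφ : Continuous φ := by
    exact (continuous_const_smul a).sub continuous_const
  let V' : Set X := {y : X | ‖y‖ ≤ 1 ∧ toWeakSpace 𝕜 X y ∈ φ ⁻¹' U}
  have hV' : RelWeaklyOpen 𝕜 V' := ⟨φ ⁻¹' U, hU.preimage hφ, rfl⟩
  have hφx : ∀ y : X, φ (toWeakSpace 𝕜 X y) = toWeakSpace 𝕜 X (a • y - b • x) := by
    intro y
    simp [φ, map_sub, map_smul]
  have hxV' : x ∈ V' := by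
    refine ⟨hx.le, ?_⟩
    show φ (toWeakSpace 𝕜 X x) ∈ U
    rw [hφx, ← sub_smul, hab]
    exact hxV.2
  have hsup := hdelta.2 V' hV' hxV'
  rw [hx] at hsup
  have hbdd : BddAbove ((fun y => ‖(r : 𝕜) • x - y‖) ''
      {y : X | ‖y‖ ≤ 1 ∧ toWeakSpace 𝕜 X y ∈ U}) := by
    refine ⟨r + 1, ?_⟩
    rintro _ ⟨y, hy, rfl⟩
    calc ‖(r : 𝕜) • x - y‖ ≤ ‖(r : 𝕜) • x‖ + ‖y‖ := norm_sub_le _ _
      _ ≤ r + 1 := by rw [hnr]; linarith [hy.1]
  apply le_antisymm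
  · apply csSup_le
    · exact ⟨_, ⟨_, hxV, rfl⟩⟩
    · rintro _ ⟨y, hy, rfl⟩
      calc ‖(r : 𝕜) • x - y‖ ≤ ‖(r : 𝕜) • x‖ + ‖y‖ := norm_sub_le _ _
        _ ≤ 1 + r := by rw [hnr]; linarith [hy.1]
  · apply le_of_forall_pos_lt_add
    intro ε hε
    have hne : ((fun y => ‖x - y‖) '' V').Nonempty := ⟨_, ⟨x, hxV', rfl⟩⟩
    obtain ⟨_, ⟨y, hy, rfl⟩, hyε⟩ := exists_lt_of_lt_csSup hne
      (show (2 - ε : ℝ) < sSup ((fun y => ‖x - y‖) '' V') by rw [hsup]; linarith)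
    have hmem : a • y - b • x ∈ {y : X | ‖y‖ ≤ 1 ∧ toWeakSpace 𝕜 X y ∈ U} := by
      refine ⟨?_, ?_⟩
      · calc ‖a • y - b • x‖ ≤ ‖a • y‖ + ‖b • x‖ := norm_sub_le _ _
          _ ≤ (1 + r) / 2 * 1 + (1 - r) / 2 := by
              rw [norm_smul, norm_smul, hna, hnb, hx, mul_one]
              have := hy.1
              gcongr
          _ = 1 := by ring
      · rw [← hφx]; exact hy.2
    have hle := le_csSup hbdd ⟨_, hmem, rfl⟩
    have heq : (r : 𝕜) • x - (a • y - b • x) = a • (x - y) := by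
      have hra : (r : 𝕜) = a - b := hab.symm
      rw [hra, sub_smul, smul_sub]; abel
    have hlow : (1 + r) / 2 * (2 - ε) < ‖(r : 𝕜) • x - (a • y - b • x)‖ := by
      rw [heq, norm_smul, hna]
      have : (0:ℝ) < (1 + r) / 2 := by linarith
      exact mul_lt_mul_of_pos_left hyε this
    have h3 : 1 + r - ε < (1 + r) / 2 * (2 - ε) ∨ 1 + r - ε ≤ (1 + r) / 2 * (2 - ε) := by
      right; nlinarith
    have h4 : 1 + r - ε ≤ (1 + r) / 2 * (2 - ε) := by nlinarith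
    simp only at hle
    linarith

end Pool.Agent.Results.MP_48b6db_an.RaySuperDelta
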